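import Pool.Agent.Helper67_HSL.WGN
import Pool.Agent.AND2B.Base

/-!
# ACX: `ψ_x(U) = Im G_xx(U, E + i f)` on the torus, spectral averaging (helper38)
-/

set_option autoImplicit false

open MeasureTheory ProbabilityTheory

open scoped BigOperators NNReal ENNReal Matrix

noncomputable section

namespace Pool.Agent.ACX.H38

open Pool.Agent.BED (Tor adj)
open Pool.Agent.ANR (Gr Net)
open Pool.Agent.ANP (gm)
open Pool.Agent.AND2B (Hr res)
open Pool.Agent.HSL67 Pool.Agent.HSL14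
open Pool.Agent.LE.QD (rs hz)

variable {d M : ℕ} [NeZero M]

/-- `Im G_xx(U, E + i f)` -/
def psi (E f : ℝ) (U : Tor d M → ℝ) (x : Tor d M) : ℝ := (Gr (Hr U E) (fun _ => f) x x).im

theorem adj_sym (x y : Tor d M) : adj d M x y = adj d M y x := by
  unfold adj
  simp only [Matrix.of_apply]
  refine Finset.sum_congr rfl fun i _ => ?_
  have e1 : (y = x + BED.ev i) ↔ (x = y - BED.ev i) := by
    constructor
    · rintro rfl
      abel
    · rintro rfl
      abel
  have e2 : (y = x - BED.ev i) ↔ (x = y + BED.ev i) := by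
    constructor
    · rintro rfl
      abel
    · rintro rfl
      abel
  simp only [e1, e2]
  ring

theorem hr_sym (U : Tor d M → ℝ) (E : ℝ) (x y : Tor d M) : Hr U E x y = Hr U E y x := by
  unfold Hr
  rw [Matrix.add_apply, Matrix.add_apply, adj_sym x y]
  congr 1
  by_cases hxy : x = y
  · subst hxy; rfl
  · rw [Matrix.diagonal_apply_ne _ hxy, Matrix.diagonal_apply_ne _ (Ne.symm hxy)]

theorem net_c (U : Tor d M → ℝ) (E : ℝ) {f : ℝ} (hf : 0 < f) : Net (Hr U E) (fun _ => f) :=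
  ⟨hr_sym U E, fun _ => hf⟩

theorem hr_add (U : Tor d M → ℝ) (E : ℝ) : Hr U E = addV (Hr 0 E) U := by
  unfold addV Hr
  rw [add_assoc, Matrix.diagonal_add]
  congr 2
  funext x
  simp only [Pi.zero_apply]
  ring

/-- the resolvent of the network with constant absorption is the resolvent at `E + i f` -/
theorem gr_rs (U : Tor d M → ℝ) (E f : ℝ) : Gr (Hr U E) (fun _ => f) = rs U ⟨E, f⟩ := by
  unfold Gr rs hz
  congr 1
  ext x y
  simp only [Hr, Matrix.sub_apply, Matrix.map_apply, Matrix.add_apply]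
  by_cases hxy : x = y
  · subst hxy
    simp only [Matrix.diagonal_apply_eq, Complex.ofReal_add, Complex.ofReal_sub]
    have : (⟨E, f⟩ : ℂ) = E + Complex.I * f := by
      apply Complex.ext <;> simp
    rw [this]
    ring
  · simp only [Matrix.diagonal_apply_ne _ hxy]
    push_cast
    ring

theorem psi_rs (E f : ℝ) (U : Tor d M → ℝ) (x : Tor d M) :
    psi E f U x = (rs U ⟨E, f⟩ x x).im := by
  unfold psi
  rw [gr_rs]

theorem gr_cont' (E : ℝ) {f : ℝ} (hf : 0 < f) (x y : Tor d M) :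
    Continuous fun U : Tor d M → ℝ => Gr (Hr U E) (fun _ => f) x y := by
  have h := gr_cont (net_c (0 : Tor d M → ℝ) E hf) x y
  simp only [← hr_add] at h
  exact h

theorem psi_cont (E : ℝ) {f : ℝ} (hf : 0 < f) (x : Tor d M) :
    Continuous fun U : Tor d M → ℝ => psi E f U x :=
  Complex.continuous_im.comp (gr_cont' E hf x x)

theorem psi_meas (E : ℝ) {f : ℝ} (hf : 0 < f) (x : Tor d M) :
    Measurable fun U : Tor d M → ℝ => psi E f U x := (psi_cont E hf x).measurable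

/-- the row masses -/
theorem psi_row (E : ℝ) {f : ℝ} (hf : 0 < f) (U : Tor d M → ℝ) (x : Tor d M) :
    psi E f U x = f * ∑ y, ‖Gr (Hr U E) (fun _ => f) x y‖ ^ 2 := by
  have h := ward_diag (hr_sym U E) (mat_unit (net_c U E hf)) x
  rw [Finset.mul_sum]
  exact h.symm

theorem psi_nonneg (E : ℝ) {f : ℝ} (hf : 0 < f) (U : Tor d M → ℝ) (x : Tor d M) :
    0 ≤ psi E f U x := by
  rw [psi_row E hf]
  exact mul_nonneg hf.le (Finset.sum_nonneg fun _ _ => sq_nonneg _)

theorem psi_diag (E : ℝ) {f : ℝ} (hf : 0 < f) (U : Tor d M → ℝ) (x : Tor d M) :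
    ‖Gr (Hr U E) (fun _ => f) x x‖ ≤ 1 / f := by
  have h1 := psi_row E hf U x
  have h2 : ‖Gr (Hr U E) (fun _ => f) x x‖ ^ 2 ≤ ∑ y, ‖Gr (Hr U E) (fun _ => f) x y‖ ^ 2 :=
    Finset.single_le_sum (f := fun y => ‖Gr (Hr U E) (fun _ => f) x y‖ ^ 2)
      (fun _ _ => sq_nonneg _) (Finset.mem_univ x)
  have h3 : psi E f U x ≤ ‖Gr (Hr U E) (fun _ => f) x x‖ :=
    (le_abs_self _).trans (Complex.abs_im_le_norm _)
  have h4 := mul_le_mul_of_nonneg_left h2 hf.le
  rw [← h1] at h4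
  have h5 : f * ‖Gr (Hr U E) (fun _ => f) x x‖ ^ 2 ≤ ‖Gr (Hr U E) (fun _ => f) x x‖ := h4.trans h3
  rw [le_div_iff₀ hf]
  rcases (norm_nonneg (Gr (Hr U E) (fun _ => f) x x)).lt_or_eq with h | h
  · nlinarith
  · rw [← h]
    norm_num

theorem psi_le (E : ℝ) {f : ℝ} (hf : 0 < f) (U : Tor d M → ℝ) (x : Tor d M) :
    psi E f U x ≤ 1 / f :=
  ((le_abs_self _).trans (Complex.abs_im_le_norm _)).trans (psi_diag E hf U x)

theorem psi_pos (E : ℝ) {f : ℝ} (hf : 0 < f) (U : Tor d M → ℝ) (x : Tor d M) :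
    0 < psi E f U x := by
  rcases (psi_nonneg E hf U x).lt_or_eq with h | h
  · exact h
  · exfalso
    rw [psi_row E hf] at h
    have h1 : ∑ y, ‖Gr (Hr U E) (fun _ => f) x y‖ ^ 2 = 0 := by
      rcases mul_eq_zero.1 h.symm with h' | h'
      · exact absurd h' hf.ne'
      · exact h'
    have h2 : ∀ y, Gr (Hr U E) (fun _ => f) x y = 0 := by
      intro y
      have h3 := (Finset.sum_eq_zero_iff_of_nonneg (fun y _ => sq_nonneg
        ‖Gr (Hr U E) (fun _ => f) x y‖)).1 h1 y (Finset.mem_univ y)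
      simpa using h3
    have h3 : (Gr (Hr U E) (fun _ => f) * mat (Hr U E) fun _ => f) x x = 1 := by
      rw [gr_eq, Matrix.nonsing_inv_mul _ (mat_unit (net_c U E hf)), Matrix.one_apply_eq]
    rw [Matrix.mul_apply] at h3
    simp [h2] at h3

theorem psi_integrable (E : ℝ) {f : ℝ} (hf : 0 < f) (x : Tor d M)
    (μ : Measure (Tor d M → ℝ)) [IsFiniteMeasure μ] : Integrable (fun U => psi E f U x) μ := by
  refine Integrable.of_bound (psi_meas E hf x).aestronglyMeasurable (1 / f)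
    (Filter.Eventually.of_forall fun U => ?_)
  rw [Real.norm_eq_abs, abs_of_nonneg (psi_nonneg E hf U x)]
  exact psi_le E hf U x

instance (a : Tor d M → ℝ) (r : Tor d M → ℝ≥0) : IsProbabilityMeasure (gm a r) := by
  unfold gm
  infer_instance

/-- SPECTRAL AVERAGING, lintegral form -/
theorem psi_lint (E : ℝ) {f : ℝ} (hf : 0 < f) (a : Tor d M → ℝ) (r : Tor d M → ℝ≥0)
    (x : Tor d M) (hr : 0 < r x) :
    ∫⁻ U, ENNReal.ofReal (psi E f U x) ∂(gm a r) ≤
      ENNReal.ofReal (Real.sqrt (Real.pi / (2 * r x))) := by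
  have h := wgn (net_c (0 : Tor d M → ℝ) E hf) a r x (r₀ := (r x : ℝ)) (by exact_mod_cast hr) le_rfl
  simp only [← hr_add] at h
  exact h

/-- SPECTRAL AVERAGING -/
theorem psi_int (E : ℝ) {f : ℝ} (hf : 0 < f) (a : Tor d M → ℝ) (r : Tor d M → ℝ≥0)
    (x : Tor d M) (hr : 0 < r x) :
    ∫ U, psi E f U x ∂(gm a r) ≤ Real.sqrt (Real.pi / (2 * r x)) := by
  rw [integral_eq_lintegral_of_nonneg_ae
    (Filter.Eventually.of_forall fun U => psi_nonneg E hf U x)
    (psi_meas E hf x).aestronglyMeasurable]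
  exact ENNReal.toReal_le_of_le_ofReal (Real.sqrt_nonneg _) (psi_lint E hf a r x hr)

theorem psi_int2 (E : ℝ) {f : ℝ} (hf : 0 < f) (a : Tor d M → ℝ) (r : Tor d M → ℝ≥0)
    (x : Tor d M) (hr : 0 < r x) :
    ∫ U, psi E f U x ∂(gm a r) ≤ 2 / Real.sqrt (r x) := by
  refine (psi_int E hf a r x hr).trans ?_
  have hr' : (0 : ℝ) < r x := by exact_mod_cast hr
  have h1 : (0 : ℝ) < Real.sqrt (r x) := Real.sqrt_pos.2 hr'
  rw [le_div_iff₀ h1, ← Real.sqrt_mul (by positivity)]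
  have h2 : Real.pi / (2 * (r x : ℝ)) * r x = Real.pi / 2 := by
    field_simp
  rw [h2]
  have h3 : Real.sqrt (Real.pi / 2) ≤ Real.sqrt (2 ^ 2) :=
    Real.sqrt_le_sqrt (by have := Real.pi_lt_four; linarith)
  rwa [Real.sqrt_sq (by norm_num)] at h3

/-- SPECTRAL AVERAGING with a lower bound for the variance -/
theorem psi_int3 (E : ℝ) {f : ℝ} (hf : 0 < f) (a : Tor d M → ℝ) (r : Tor d M → ℝ≥0)
    (x : Tor d M) {r₀ : ℝ} (h0 : 0 < r₀) (hr : r₀ ≤ r x) :
    ∫ U, psi E f U x ∂(gm a r) ≤ 2 / Real.sqrt r₀ := by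
  have hr' : 0 < r x := by
    have : (0 : ℝ) < r x := h0.trans_le hr
    exact_mod_cast this
  exact (psi_int2 E hf a r x hr').trans
    (div_le_div_of_nonneg_left (by norm_num) (Real.sqrt_pos.2 h0) (Real.sqrt_le_sqrt hr))

/-- the sum over a finite set -/
theorem psi_sum (E : ℝ) {f : ℝ} (hf : 0 < f) (a : Tor d M → ℝ) (r : Tor d M → ℝ≥0)
    (S : Finset (Tor d M)) {r₀ : ℝ} (h0 : 0 < r₀) (hr : ∀ x ∈ S, r₀ ≤ r x) :
    ∫ U, (∑ x ∈ S, psi E f U x) ∂(gm a r) ≤ S.card * (2 / Real.sqrt r₀) := by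
  rw [integral_finsetSum _ fun x _ => psi_integrable E hf x _]
  refine (Finset.sum_le_card_nsmul _ _ _ fun x hx => psi_int3 E hf a r x h0 (hr x hx)).trans ?_
  rw [nsmul_eq_mul]

end Pool.Agent.ACX.H38
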